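import Mathlib

/-!
Combinatorial part of the tube occupancy construction: a pattern `σ` choosing one cell in each
column of an `N × ... × N` grid such that every thin tube meets few chosen cells.
-/

namespace K9h79.Tube

open Finset

/-- columns of the grid -/
abbrev Col (m N : ℕ) : Type := Fin m → Fin N

/-- cells of the grid -/
abbrev Grid (m N : ℕ) : Type := (Fin m → Fin N) × Fin N

/-- `c` is within sup-distance `4` of the segment from `a` to `b`. -/
def Near (m N : ℕ) (a b c : (Fin m → Fin N) × Fin N) : Prop :=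
  ∃ l : ℝ, 0 ≤ l ∧ l ≤ 1 ∧
    (∀ j, |((c.1 j : ℕ) : ℝ) - ((1 - l) * ((a.1 j : ℕ) : ℝ) + l * ((b.1 j : ℕ) : ℝ))| ≤ 4) ∧
    |((c.2 : ℕ) : ℝ) - ((1 - l) * ((a.2 : ℕ) : ℝ) + l * ((b.2 : ℕ) : ℝ))| ≤ 4

open Classical in
lemma card_fin_near (N : ℕ) (q : ℝ) :
    (univ.filter fun y : Fin N => |((y : ℕ) : ℝ) - q| ≤ 5).card ≤ 11 := by
  have h1 : (univ.filter fun y : Fin N => |((y : ℕ) : ℝ) - q| ≤ 5).card
      ≤ (Finset.Icc ⌈q - 5⌉ ⌊q + 5⌋).card := by
    apply Finset.card_le_card_of_injOn (fun y : Fin N => ((y : ℕ) : ℤ))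
    · intro y hy
      have hy' : |((y : ℕ) : ℝ) - q| ≤ 5 := by simpa using hy
      rw [abs_le] at hy'
      simp only [Finset.coe_Icc, Set.mem_Icc]
      constructor
      · rw [Int.ceil_le]
        push_cast
        linarith [hy'.1]
      · rw [Int.le_floor]
        push_cast
        linarith [hy'.2]
    · intro x _ y _ hxy
      apply Fin.ext
      have hxy' : ((x : ℕ) : ℤ) = ((y : ℕ) : ℤ) := hxy
      exact_mod_cast hxy'
  refine h1.trans ?_
  rw [Int.card_Icc]
  have h2 : (⌊q + 5⌋ : ℝ) ≤ q + 5 := Int.floor_le _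
  have h3 : q - 5 ≤ (⌈q - 5⌉ : ℝ) := Int.le_ceil _
  have h4 : ⌊q + 5⌋ - ⌈q - 5⌉ ≤ 10 := by
    have : ((⌊q + 5⌋ - ⌈q - 5⌉ : ℤ) : ℝ) ≤ ((10 : ℤ) : ℝ) := by
      push_cast
      linarith
    exact_mod_cast this
  omega

open Classical in
lemma card_near_le (m N : ℕ) (a b : (Fin m → Fin N) × Fin N) :
    (univ.filter fun c => Near m N a b c).card ≤ (N + 1) * 11 ^ (m + 1) := by
  have hN : 0 < N := lt_of_le_of_lt (Nat.zero_le _) a.2.isLt
  have hN' : (0 : ℝ) < N := by exact_mod_cast hN
  set qv : ℕ → ℝ → ℝ → ℝ := fun k u v => (1 - (k : ℝ) / N) * u + (k : ℝ) / N * v with hqv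
  set box : ℕ → Finset ((Fin m → Fin N) × Fin N) := fun k =>
    (Fintype.piFinset fun j => univ.filter fun y : Fin N =>
      |((y : ℕ) : ℝ) - qv k ((a.1 j : ℕ) : ℝ) ((b.1 j : ℕ) : ℝ)| ≤ 5) ×ˢ
    (univ.filter fun y : Fin N => |((y : ℕ) : ℝ) - qv k ((a.2 : ℕ) : ℝ) ((b.2 : ℕ) : ℝ)| ≤ 5)
    with hbox
  have hboxcard : ∀ k, (box k).card ≤ 11 ^ (m + 1) := by
    intro k
    rw [hbox]
    simp only [Finset.card_product, Fintype.card_piFinset]
    calc (∏ j : Fin m, (univ.filter fun y : Fin N =>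
            |((y : ℕ) : ℝ) - qv k ((a.1 j : ℕ) : ℝ) ((b.1 j : ℕ) : ℝ)| ≤ 5).card) *
          (univ.filter fun y : Fin N =>
            |((y : ℕ) : ℝ) - qv k ((a.2 : ℕ) : ℝ) ((b.2 : ℕ) : ℝ)| ≤ 5).card
        ≤ (∏ _j : Fin m, 11) * 11 := by
          apply Nat.mul_le_mul
          · exact Finset.prod_le_prod' fun j _ => card_fin_near N _
          · exact card_fin_near N _
      _ = 11 ^ (m + 1) := by simp [pow_succ]
  have hcover : (univ.filter fun c => Near m N a b c) ⊆ (range (N + 1)).biUnion box := by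
    intro c hc
    obtain ⟨l, hl0, hl1, h1, h2⟩ := (Finset.mem_filter.mp hc).2
    rw [Finset.mem_biUnion]
    refine ⟨⌊l * N⌋₊, ?_, ?_⟩
    · rw [Finset.mem_range]
      have : ⌊l * (N : ℝ)⌋₊ ≤ N := by
        apply Nat.floor_le_of_le
        nlinarith
      omega
    · have hk1 : ((⌊l * (N : ℝ)⌋₊ : ℕ) : ℝ) ≤ l * N := Nat.floor_le (by positivity)
      have hk2 : l * N < ((⌊l * (N : ℝ)⌋₊ : ℕ) : ℝ) + 1 := Nat.lt_floor_add_one _
      set k := ⌊l * (N : ℝ)⌋₊ with hk
      have hkl : |l - (k : ℝ) / N| ≤ 1 / N := by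
        rw [abs_le]
        constructor
        · have : (k : ℝ) / N ≤ l := by rw [div_le_iff₀ hN']; linarith
          have : (0 : ℝ) < 1 / N := by positivity
          linarith
        · have : l ≤ (k : ℝ) / N + 1 / N := by
            rw [← add_div, le_div_iff₀ hN']; linarith
          linarith
      have key : ∀ x u v : Fin N, |((x : ℕ) : ℝ) - ((1 - l) * ((u : ℕ) : ℝ) + l * ((v : ℕ) : ℝ))| ≤ 4 →
          |((x : ℕ) : ℝ) - qv k ((u : ℕ) : ℝ) ((v : ℕ) : ℝ)| ≤ 5 := by
        intro x u v hx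
        have hu : ((u : ℕ) : ℝ) ≤ N := by exact_mod_cast u.isLt.le
        have hv : ((v : ℕ) : ℝ) ≤ N := by exact_mod_cast v.isLt.le
        have hu0 : (0 : ℝ) ≤ ((u : ℕ) : ℝ) := Nat.cast_nonneg _
        have hv0 : (0 : ℝ) ≤ ((v : ℕ) : ℝ) := Nat.cast_nonneg _
        have huv : |((v : ℕ) : ℝ) - ((u : ℕ) : ℝ)| ≤ N := by
          rw [abs_le]; constructor <;> linarith
        have heq : ((x : ℕ) : ℝ) - qv k ((u : ℕ) : ℝ) ((v : ℕ) : ℝ)
            = (((x : ℕ) : ℝ) - ((1 - l) * ((u : ℕ) : ℝ) + l * ((v : ℕ) : ℝ)))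
              + (l - (k : ℝ) / N) * (((v : ℕ) : ℝ) - ((u : ℕ) : ℝ)) := by
          simp only [hqv]; ring
        rw [heq]
        refine (abs_add_le _ _).trans ?_
        rw [abs_mul]
        have : |l - (k : ℝ) / N| * |((v : ℕ) : ℝ) - ((u : ℕ) : ℝ)| ≤ 1 / N * N := by
          apply mul_le_mul hkl huv (abs_nonneg _) (by positivity)
        rw [one_div, inv_mul_cancel₀ hN'.ne'] at this
        linarith
      rw [hbox]
      simp only [Finset.mem_product, Fintype.mem_piFinset, Finset.mem_filter, Finset.mem_univ,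
        true_and]
      exact ⟨fun j => key _ _ _ (h1 j), key _ _ _ h2⟩
  calc (univ.filter fun c => Near m N a b c).card ≤ ((range (N + 1)).biUnion box).card :=
        Finset.card_le_card hcover
    _ ≤ (range (N + 1)).card * 11 ^ (m + 1) := Finset.card_biUnion_le_card_mul _ _ _
        (fun k _ => hboxcard k)
    _ = (N + 1) * 11 ^ (m + 1) := by rw [Finset.card_range]

open Classical in
lemma exists_pattern (m N M : ℕ) (hN : 0 < N)
    (h : (N : ℝ) ^ (2 * (m + 1)) * Real.exp (2 * 11 ^ (m + 1)) < 2 ^ M) :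
    ∃ σ : (Fin m → Fin N) → Fin N, ∀ a b,
      (univ.filter fun x => Near m N a b (x, σ x)).card < M := by
  by_contra hcon
  push Not at hcon
  have hN' : (0 : ℝ) < N := by exact_mod_cast hN
  -- the weight of a pattern
  set W : Grid m N → Grid m N → (Col m N → Fin N) → ℝ := fun a b σ =>
    ∏ x : Col m N, (if Near m N a b (x, σ x) then (2 : ℝ) else 1) with hW
  have hWeq : ∀ a b σ, W a b σ = 2 ^ (univ.filter fun x => Near m N a b (x, σ x)).card := by
    intro a b σ
    simp only [hW]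
    rw [Finset.prod_ite]
    simp
  have hsum : ∀ a b, ∑ σ : Col m N → Fin N, W a b σ
      ≤ (N : ℝ) ^ (Fintype.card (Col m N)) * Real.exp (2 * 11 ^ (m + 1)) := by
    intro a b
    have e1 : ∑ σ : Col m N → Fin N, W a b σ
        = ∏ x : Col m N, ∑ y : Fin N, (if Near m N a b (x, y) then (2 : ℝ) else 1) := by
      rw [Finset.prod_univ_sum]
      simp only [Fintype.piFinset_univ, hW]
    rw [e1]
    have e2 : ∀ x : Col m N, ∑ y : Fin N, (if Near m N a b (x, y) then (2 : ℝ) else 1)
        = N + ((univ.filter fun y : Fin N => Near m N a b (x, y)).card : ℝ) := by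
      intro x
      have : ∀ y : Fin N, (if Near m N a b (x, y) then (2 : ℝ) else 1)
          = 1 + (if Near m N a b (x, y) then (1 : ℝ) else 0) := by
        intro y; split_ifs <;> norm_num
      simp only [this, Finset.sum_add_distrib, Finset.sum_const, Finset.card_univ,
        Fintype.card_fin, nsmul_eq_mul, mul_one, Finset.sum_boole]
    have e3 : ∀ x : Col m N, ∑ y : Fin N, (if Near m N a b (x, y) then (2 : ℝ) else 1)
        ≤ N * Real.exp (((univ.filter fun y : Fin N => Near m N a b (x, y)).card : ℝ) / N) := by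
      intro x
      rw [e2]
      have := Real.add_one_le_exp (((univ.filter fun y : Fin N => Near m N a b (x, y)).card : ℝ) / N)
      calc (N : ℝ) + ((univ.filter fun y : Fin N => Near m N a b (x, y)).card : ℝ)
          = N * (((univ.filter fun y : Fin N => Near m N a b (x, y)).card : ℝ) / N + 1) := by
            field_simp; ring
        _ ≤ _ := mul_le_mul_of_nonneg_left this hN'.le
    calc ∏ x : Col m N, ∑ y : Fin N, (if Near m N a b (x, y) then (2 : ℝ) else 1)
        ≤ ∏ x : Col m N, (N * Real.exp (((univ.filter fun y : Fin N => Near m N a b (x, y)).card : ℝ) / N)) := by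
          apply Finset.prod_le_prod
          · intro x _
            apply Finset.sum_nonneg
            intro y _
            split_ifs <;> norm_num
          · intro x _; exact e3 x
      _ = (N : ℝ) ^ (Fintype.card (Col m N)) *
            Real.exp (∑ x : Col m N, ((univ.filter fun y : Fin N => Near m N a b (x, y)).card : ℝ) / N) := by
          rw [Finset.prod_mul_distrib, Finset.prod_const, Finset.card_univ, Real.exp_sum]
      _ ≤ (N : ℝ) ^ (Fintype.card (Col m N)) * Real.exp (2 * 11 ^ (m + 1)) := by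
          apply mul_le_mul_of_nonneg_left _ (by positivity)
          apply Real.exp_le_exp.mpr
          rw [← Finset.sum_div]
          have hc : (∑ x : Col m N, ((univ.filter fun y : Fin N => Near m N a b (x, y)).card : ℝ))
              = ((univ.filter fun c : Grid m N => Near m N a b c).card : ℝ) := by
            have : (univ.filter fun c : Grid m N => Near m N a b c).card
                = ∑ x : Col m N, (univ.filter fun y : Fin N => Near m N a b (x, y)).card := by
              rw [Finset.card_filter, Fintype.sum_prod_type]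
              apply Finset.sum_congr rfl
              intro x _
              rw [Finset.card_filter]
            rw [this]
            push_cast
            rfl
          rw [hc, div_le_iff₀ hN']
          have h1 : ((univ.filter fun c : Grid m N => Near m N a b c).card : ℝ)
              ≤ ((N + 1) * 11 ^ (m + 1) : ℕ) := by exact_mod_cast card_near_le m N a b
          refine h1.trans ?_
          push_cast
          have h2 : (1 : ℝ) ≤ N := by exact_mod_cast hN
          have h3 : (0 : ℝ) < 11 ^ (m + 1) := by positivity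
          nlinarith
  have hlow : (N : ℝ) ^ (Fintype.card (Col m N)) * 2 ^ M ≤ ∑ p : Grid m N × Grid m N, ∑ σ : Col m N → Fin N, W p.1 p.2 σ := by
    rw [Finset.sum_comm]
    have : ∀ σ : Col m N → Fin N, (2 : ℝ) ^ M ≤ ∑ p : Grid m N × Grid m N, W p.1 p.2 σ := by
      intro σ
      obtain ⟨a, b, hab⟩ := hcon σ
      have hnn : ∀ p : Grid m N × Grid m N, 0 ≤ W p.1 p.2 σ := by
        intro p; rw [hWeq]; positivity
      refine le_trans ?_ (Finset.single_le_sum (fun p _ => hnn p) (Finset.mem_univ (a, b)))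
      rw [hWeq]
      exact pow_le_pow_right₀ (by norm_num) hab
    calc (N : ℝ) ^ (Fintype.card (Col m N)) * 2 ^ M = ∑ _σ : Col m N → Fin N, (2 : ℝ) ^ M := by
          rw [Finset.sum_const, Finset.card_univ, nsmul_eq_mul]
          have hc : Fintype.card (Col m N → Fin N) = N ^ Fintype.card (Col m N) := by
            rw [Fintype.card_fun (α := Col m N) (β := Fin N), Fintype.card_fin]
          rw [hc]
          push_cast
          rfl
      _ ≤ _ := Finset.sum_le_sum fun σ _ => this σ
  have hup : ∑ p : Grid m N × Grid m N, ∑ σ : Col m N → Fin N, W p.1 p.2 σ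
      ≤ (N : ℝ) ^ (2 * (m + 1)) * ((N : ℝ) ^ (Fintype.card (Col m N)) * Real.exp (2 * 11 ^ (m + 1))) := by
    calc ∑ p : Grid m N × Grid m N, ∑ σ : Col m N → Fin N, W p.1 p.2 σ
        ≤ ∑ _p : Grid m N × Grid m N, ((N : ℝ) ^ (Fintype.card (Col m N)) * Real.exp (2 * 11 ^ (m + 1))) :=
          Finset.sum_le_sum fun p _ => hsum p.1 p.2
      _ = _ := by
          rw [Finset.sum_const, Finset.card_univ, nsmul_eq_mul]
          congr 1
          simp only [Fintype.card_prod, Fintype.card_fin, Fintype.card_fun]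
          push_cast
          ring
  have hpos : (0 : ℝ) < (N : ℝ) ^ (Fintype.card (Col m N)) := by positivity
  have := hlow.trans hup
  have h5 : (N : ℝ) ^ (2 * (m + 1)) * ((N : ℝ) ^ (Fintype.card (Col m N)) * Real.exp (2 * 11 ^ (m + 1)))
      < (N : ℝ) ^ (Fintype.card (Col m N)) * 2 ^ M := by
    calc (N : ℝ) ^ (2 * (m + 1)) * ((N : ℝ) ^ (Fintype.card (Col m N)) * Real.exp (2 * 11 ^ (m + 1)))
        = (N : ℝ) ^ (Fintype.card (Col m N)) * ((N : ℝ) ^ (2 * (m + 1)) * Real.exp (2 * 11 ^ (m + 1))) := by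
          ring
      _ < _ := mul_lt_mul_of_pos_left h hpos
  linarith

open Classical in
lemma card_le_of_line {m N M : ℕ} {σ : (Fin m → Fin N) → Fin N}
    (hσ : ∀ a b, (univ.filter fun x => Near m N a b (x, σ x)).card < M)
    (X : Finset (Fin m → Fin N)) (P V : Fin m → ℝ) (P' V' : ℝ) (t : (Fin m → Fin N) → ℝ)
    (h : ∀ x ∈ X, (∀ j, |((x j : ℕ) : ℝ) - (P j + t x * V j)| ≤ 2) ∧
      |((σ x : ℕ) : ℝ) - (P' + t x * V')| ≤ 2) : X.card ≤ M := by
  rcases X.eq_empty_or_nonempty with rfl | hne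
  · simp
  obtain ⟨u, hu, hu'⟩ := X.exists_min_image t hne
  obtain ⟨v, hv, hv'⟩ := X.exists_max_image t hne
  refine le_of_lt (lt_of_le_of_lt (Finset.card_le_card ?_) (hσ (u, σ u) (v, σ v)))
  intro x hx
  rw [Finset.mem_filter]
  refine ⟨Finset.mem_univ _, ?_⟩
  -- the parameter
  obtain ⟨l, hl0, hl1, hl⟩ : ∃ l : ℝ, 0 ≤ l ∧ l ≤ 1 ∧ t x = (1 - l) * t u + l * t v := by
    rcases eq_or_lt_of_le ((hu' x hx).trans (hv' x hx)) with heq | hlt
    · refine ⟨0, le_refl _, zero_le_one, ?_⟩
      have h1 := hu' x hx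
      have h2 := hv' x hx
      rw [← heq] at h2
      linarith
    · have hpos : 0 < t v - t u := by linarith
      refine ⟨(t x - t u) / (t v - t u), ?_, ?_, ?_⟩
      · apply div_nonneg _ hpos.le
        linarith [hu' x hx]
      · rw [div_le_one hpos]
        linarith [hv' x hx]
      · field_simp
        ring
  have key : ∀ (y y1 y2 p w : ℝ), |y - (p + t x * w)| ≤ 2 → |y1 - (p + t u * w)| ≤ 2 →
      |y2 - (p + t v * w)| ≤ 2 → |y - ((1 - l) * y1 + l * y2)| ≤ 4 := by
    intro y y1 y2 p w h0 h1 h2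
    rw [hl] at h0
    rw [abs_le] at h0 h1 h2 ⊢
    constructor <;> nlinarith
  exact ⟨l, hl0, hl1, fun j => key _ _ _ (P j) (V j) ((h x hx).1 j) ((h u hu).1 j) ((h v hv).1 j),
    key _ _ _ P' V' (h x hx).2 (h u hu).2 (h v hv).2⟩

end K9h79.Tube
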