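import Mathlib
import Pool.Agent.K9h79.Tube.Geom

/-!
Measure part: upper and lower bounds for the Hausdorff measure.
-/

namespace K9h79.Tube

open Finset MeasureTheory Filter Topology
open scoped ENNReal

lemma dist_le_of_coord {m : ℕ} (x y : E m) (r : ℝ) (hr : 0 ≤ r) (h : ∀ i, |x i - y i| ≤ r) :
    dist x y ≤ (m + 1) * r := by
  rw [EuclideanSpace.dist_eq]
  rw [Real.sqrt_le_left (by positivity)]
  calc ∑ i : Fin (m + 1), dist (x i) (y i) ^ 2 ≤ ∑ _i : Fin (m + 1), r ^ 2 := by
        apply Finset.sum_le_sum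
        intro i _
        rw [Real.dist_eq]
        exact pow_le_pow_left₀ (abs_nonneg _) (h i) 2
    _ = (m + 1) * r ^ 2 := by simp
    _ ≤ ((m + 1) * r) ^ 2 := by
        have h1 : (1 : ℝ) ≤ (m : ℝ) + 1 := by
          have : (0 : ℝ) ≤ m := Nat.cast_nonneg m
          linarith
        have h2 : 0 ≤ r ^ 2 := by positivity
        nlinarith [mul_nonneg (sub_nonneg.mpr h1) h2]

lemma dist_le_of_mem_cell {m n : ℕ} {k : Fin m → ℕ} {x y : E m} (hx : x ∈ Cell m n k)
    (hy : y ∈ Cell m n k) : dist x y ≤ (m + 1) / R n := by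
  have hR := R_pos' n
  have key : ∀ (a b u : ℝ), u ≤ a * R n → a * R n ≤ u + 1 → u ≤ b * R n → b * R n ≤ u + 1 →
      |a - b| ≤ 1 / R n := by
    intro a b u h1 h2 h3 h4
    rw [le_div_iff₀ hR, ← abs_of_pos hR, ← abs_mul, abs_le]
    constructor <;> nlinarith
  obtain ⟨hx1, hx2, hx3⟩ := hx
  obtain ⟨hy1, hy2, hy3⟩ := hy
  have := dist_le_of_coord x y (1 / R n) (by positivity) (fun i => by
    refine Fin.lastCases ?_ (fun j => ?_) i
    · exact key _ _ _ hx2 hx3 hy2 hy3
    · exact key _ _ _ (hx1 j).1 (hx1 j).2 (hy1 j).1 (hy1 j).2)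
  calc dist x y ≤ (m + 1) * (1 / R n) := this
    _ = (m + 1) / R n := by ring

lemma ediam_cell_le (m n : ℕ) (k : Fin m → ℕ) :
    Metric.ediam (Cell m n k) ≤ ENNReal.ofReal ((m + 1) / R n) := by
  apply Metric.ediam_le
  intro x hx y hy
  rw [edist_dist]
  exact ENNReal.ofReal_le_ofReal (dist_le_of_mem_cell hx hy)

lemma K_inter_subset (m n : ℕ) (T : Set (E m)) :
    K m ∩ T ⊆ ⋃ k : {k // k ∈ hit m n T}, Cell m n k.1 := by
  classical
  rintro z ⟨hz, hzT⟩
  have h1 := Set.mem_iInter.mp hz n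
  obtain ⟨k, hk⟩ := Set.mem_iUnion.mp h1
  obtain ⟨hkB, hzk⟩ := Set.mem_iUnion.mp hk
  exact Set.mem_iUnion.mpr ⟨⟨k, Finset.mem_filter.mpr ⟨hkB, z, hzk, hzT⟩⟩, hzk⟩

lemma tendsto_R : Tendsto (fun n => ((R n : ℕ) : ℝ)) atTop atTop := by
  apply tendsto_atTop_mono (f := fun n : ℕ => (2 : ℝ) ^ n)
  · intro n
    exact_mod_cast pow_le_R n
  · exact tendsto_pow_atTop_atTop_of_one_lt (by norm_num)

/-- main upper bound -/
lemma measure_le (m n : ℕ) (T : Set (E m)) :
    μH[(m : ℝ)] (K m ∩ T)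
      ≤ ENNReal.ofReal ((hit m n T).card * ((m + 1) / R n) ^ m) := by
  have hr : Tendsto (fun n' => ENNReal.ofReal (((m : ℝ) + 1) / R n')) atTop (𝓝 0) := by
    rw [← ENNReal.ofReal_zero]
    apply ENNReal.tendsto_ofReal
    exact tendsto_const_nhds.div_atTop tendsto_R
  have h1 := Measure.hausdorffMeasure_le_liminf_sum (m : ℝ) (K m ∩ T)
    (fun n' => ENNReal.ofReal (((m : ℝ) + 1) / R n')) hr
    (fun n' (k : {k // k ∈ hit m n' T}) => Cell m n' k.1)
    (Eventually.of_forall fun n' k => ediam_cell_le m n' k.1)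
    (Eventually.of_forall fun n' => K_inter_subset m n' T)
  refine h1.trans ?_
  apply Filter.liminf_le_of_frequently_le'
  apply Filter.Eventually.frequently
  filter_upwards [eventually_ge_atTop n] with n' hn'
  have hR := R_pos' n
  have hR' := R_pos' n'
  calc ∑ k : {k // k ∈ hit m n' T}, Metric.ediam (Cell m n' k.1) ^ (m : ℝ)
      ≤ ∑ _k : {k // k ∈ hit m n' T}, ENNReal.ofReal (((m + 1) / R n') ^ m) := by
        apply Finset.sum_le_sum
        intro k _
        rw [ENNReal.rpow_natCast, ENNReal.ofReal_pow (by positivity)]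
        exact pow_le_pow_left' (ediam_cell_le m n' k.1) m
    _ = ENNReal.ofReal ((hit m n' T).card * ((m + 1) / R n') ^ m) := by
        rw [Finset.sum_const, nsmul_eq_mul, ENNReal.ofReal_mul (by positivity)]
        simp
    _ ≤ ENNReal.ofReal ((hit m n T).card * ((m + 1) / R n) ^ m) := by
        apply ENNReal.ofReal_le_ofReal
        have h2 : ((hit m n' T).card : ℝ) * (R n : ℝ) ^ m ≤ (hit m n T).card * (R n' : ℝ) ^ m := by
          exact_mod_cast card_hit_mono m T hn'
        rw [div_pow, div_pow, ← mul_div_assoc, ← mul_div_assoc, div_le_div_iff₀ (by positivity)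
          (by positivity)]
        have h3 : (0 : ℝ) ≤ ((m : ℝ) + 1) ^ m := by positivity
        nlinarith [mul_le_mul_of_nonneg_left h2 h3]

lemma measure_K_le (m : ℕ) : μH[(m : ℝ)] (K m) ≤ ENNReal.ofReal (((m : ℝ) + 1) ^ m) := by
  classical
  have h := measure_le m 0 Set.univ
  rw [Set.inter_univ] at h
  refine h.trans (ENNReal.ofReal_le_ofReal ?_)
  have h1 : ((hit m 0 Set.univ).card : ℝ) ≤ 1 := by
    have h1 : (hit m 0 Set.univ).card ≤ (Box m 0).card := Finset.card_filter_le _ _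
    have h2 : (Box m 0).card = 1 := by simp [Box, R]
    rw [h2] at h1
    exact_mod_cast h1
  have h2 : (R 0 : ℝ) = 1 := by simp [R]
  rw [h2, div_one]
  have h3 : (0 : ℝ) ≤ ((m : ℝ) + 1) ^ m := by positivity
  nlinarith

/-! ### the lower bound -/

/-- indices of the cells over a point -/
noncomputable def idx (m n : ℕ) (x : Fin m → ℝ) : Fin m → ℕ := fun j => ⌊x j * R n⌋₊

lemma parent_idx (m n : ℕ) (x : Fin m → ℝ) : parent m n (idx m (n + 1) x) = idx m n x := by
  funext j
  simp only [parent, idx]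
  rw [← Nat.floor_div_natCast]
  congr 1
  rw [R_succ]
  push_cast
  field_simp

lemma surj (m : ℕ) (x : Fin m → ℝ) (hx : ∀ j, 0 ≤ x j ∧ x j < 1) :
    ∃ z ∈ K m, ∀ j, z (Fin.castSucc j) = x j := by
  set a : ℕ → ℝ := fun n => (H m n (idx m n x) : ℝ) / R n with ha
  set b : ℕ → ℝ := fun n => ((H m n (idx m n x) : ℝ) + 1) / R n with hb
  have hab : ∀ n, a n ≤ b n := by
    intro n
    have := R_pos' n
    simp only [ha, hb]
    gcongr
    linarith
  have hanti : Antitone fun n => Set.Icc (a n) (b n) := by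
    apply antitone_nat_of_succ_le
    intro n
    apply Set.Icc_subset_Icc
    · -- a n ≤ a (n+1)
      have h1 := R_pos' n
      have h2 := R_pos' (n + 1)
      simp only [ha]
      rw [div_le_div_iff₀ h1 h2, R_succ]
      simp only [H, parent_idx]
      push_cast
      have h3 : (0 : ℝ) ≤ ((sig m n (digits m n (idx m (n + 1) x)) : ℕ) : ℝ) := Nat.cast_nonneg _
      nlinarith
    · have h1 := R_pos' n
      have h2 := R_pos' (n + 1)
      simp only [hb]
      rw [div_le_div_iff₀ h2 h1, R_succ]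
      simp only [H, parent_idx]
      push_cast
      have h3 : ((sig m n (digits m n (idx m (n + 1) x)) : ℕ) : ℝ) + 1 ≤ 2 ^ (n + 1) := by
        exact_mod_cast (sig m n (digits m n (idx m (n + 1) x))).isLt
      nlinarith
  have hy := ciSup_mem_iInter_Icc_of_antitone_Icc hanti hab
  set y := ⨆ n, a n with hydef
  refine ⟨WithLp.toLp 2 (Fin.snoc x y : Fin (m + 1) → ℝ), ?_, ?_⟩
  · apply Set.mem_iInter.mpr
    intro n
    apply Set.mem_iUnion.mpr
    refine ⟨idx m n x, Set.mem_iUnion.mpr ⟨?_, ?_, ?_⟩⟩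
    · simp only [Box, Fintype.mem_piFinset, Finset.mem_range, idx]
      intro j
      rw [Nat.floor_lt (mul_nonneg (hx j).1 (R_pos' n).le)]
      have := R_pos' n
      nlinarith [(hx j).2]
    · intro j
      simp only [Fin.snoc_castSucc]
      constructor
      · exact Nat.floor_le (mul_nonneg (hx j).1 (R_pos' n).le)
      · exact (Nat.lt_floor_add_one _).le
    · have h1 := Set.mem_iInter.mp hy n
      obtain ⟨h2, h3⟩ := h1
      have hR := R_pos' n
      simp only [Fin.snoc_last]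
      constructor
      · simp only [ha] at h2
        rwa [div_le_iff₀ hR] at h2
      · simp only [hb] at h3
        rwa [le_div_iff₀ hR] at h3
  · intro j
    simp

lemma measure_pos (m : ℕ) : 0 < μH[(m : ℝ)] (K m) := by
  set π : E m → (Fin m → ℝ) := fun z j => z (Fin.castSucc j) with hπ
  have hlip : LipschitzWith 1 π := by
    apply LipschitzWith.of_dist_le_mul
    intro x y
    rw [NNReal.coe_one, one_mul]
    rw [dist_pi_le_iff dist_nonneg]
    intro j
    rw [Real.dist_eq]
    exact abs_coord_le x y (Fin.castSucc j)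
  have himg : (Set.univ.pi fun _ : Fin m => Set.Ico (0 : ℝ) 1) ⊆ π '' K m := by
    intro x hx
    obtain ⟨z, hz, hzx⟩ := surj m x (fun j => hx j (Set.mem_univ j))
    exact ⟨z, hz, funext hzx⟩
  have h1 : μH[(m : ℝ)] (π '' K m) ≤ (1 : NNReal) ^ (m : ℝ) * μH[(m : ℝ)] (K m) :=
    hlip.hausdorffMeasure_image_le (Nat.cast_nonneg m) (K m)
  have h2 : (μH[(m : ℝ)] : Measure (Fin m → ℝ)) = volume := by
    have := hausdorffMeasure_pi_real (ι := Fin m)
    rwa [Fintype.card_fin] at this
  have h3 : volume (Set.univ.pi fun _ : Fin m => Set.Ico (0 : ℝ) 1) = 1 := by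
    rw [Real.volume_pi_Ico]
    simp
  have h4 : (1 : ℝ≥0∞) ≤ μH[(m : ℝ)] (π '' K m) := by
    rw [h2, ← h3]
    exact measure_mono himg
  have h5 : (1 : ℝ≥0∞) ≤ μH[(m : ℝ)] (K m) := by
    refine h4.trans (h1.trans ?_)
    simp
  exact lt_of_lt_of_le zero_lt_one h5

/-! ### compactness -/

lemma isClosed_cell (m n : ℕ) (k : Fin m → ℕ) : IsClosed (Cell m n k) := by
  have hc : ∀ i : Fin (m + 1), Continuous fun z : E m => z i * (R n : ℝ) := fun i => by fun_prop
  have : Cell m n k = (⋂ j : Fin m, {z : E m | (k j : ℝ) ≤ z (Fin.castSucc j) * R n} ∩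
      {z : E m | z (Fin.castSucc j) * R n ≤ k j + 1}) ∩
      ({z : E m | ((H m n k : ℕ) : ℝ) ≤ z (Fin.last m) * R n} ∩
      {z : E m | z (Fin.last m) * R n ≤ (H m n k : ℕ) + 1}) := by
    ext z
    simp only [Cell, Set.mem_ofPred_eq, Set.mem_inter_iff, Set.mem_iInter]
  rw [this]
  refine IsClosed.inter (isClosed_iInter fun j => IsClosed.inter ?_ ?_) (IsClosed.inter ?_ ?_)
  · exact isClosed_le continuous_const (hc _)
  · exact isClosed_le (hc _) continuous_const
  · exact isClosed_le continuous_const (hc _)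
  · exact isClosed_le (hc _) continuous_const

lemma isCompact_K (m : ℕ) : IsCompact (K m) := by
  apply Metric.isCompact_of_isClosed_isBounded
  · exact isClosed_iInter fun n => (Box m n).finite_toSet.isClosed_biUnion
      fun k _ => isClosed_cell m n k
  · have h1 : K m ⊆ ⋃ k ∈ Box m 0, Cell m 0 k := Set.iInter_subset _ 0
    refine Bornology.IsBounded.subset ?_ h1
    refine (Bornology.isBounded_biUnion_finset _).mpr fun k _ => ?_
    rw [Metric.isBounded_iff_ediam_ne_top]
    exact ne_top_of_le_ne_top ENNReal.ofReal_ne_top (ediam_cell_le m 0 k)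

end K9h79.Tube
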