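import Mathlib
import Pool.Agent.K9h79.Tube.Meas

/-!
Helper file, not a hand-in (MP_e5cefd_an): for every `d ≥ 2` there is a compact set `K ⊆ ℝ^d` with
`0 < H^{d-1}(K) < ∞` which satisfies the `s`-tube bound for every `s < d - 1` at once. The statement is
known: Changhao Chen, Distribution of random Cantor sets on tubes, Ark. Mat. 54 (2016).
-/

namespace K9h79.Tube.AllExp

open MeasureTheory Filter Topology K9h79.Tube
open scoped ENNReal

/-- A line in `ℝ^d`. -/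
def IsLine {d : ℕ} (l : Set (EuclideanSpace ℝ (Fin d))) : Prop :=
  ∃ p v : EuclideanSpace ℝ (Fin d), v ≠ 0 ∧ l = {y | ∃ t : ℝ, y = p + t • v}

/-- The tube of width `w` around the line `l`: all points at distance at most `w / 2` from `l`. -/
def tube {d : ℕ} (l : Set (EuclideanSpace ℝ (Fin d))) (w : ℝ) :
    Set (EuclideanSpace ℝ (Fin d)) :=
  {x | Metric.infDist x l ≤ w / 2}

/-- the numerical sequence controlling the bound -/
noncomputable def u (m : ℕ) (s : ℝ) (n : ℕ) : ℝ :=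
  ((B m : ℝ) ^ n * n.factorial) * (R (n + 1) : ℝ) ^ s / (R n : ℝ) ^ m

lemma u_pos (m : ℕ) (s : ℝ) (n : ℕ) : 0 < u m s n := by
  have h1 : (0 : ℝ) < B m := by exact_mod_cast B_pos m
  have h2 : (0 : ℝ) < (n.factorial : ℝ) := by exact_mod_cast n.factorial_pos
  have h3 := Real.rpow_pos_of_pos (R_pos' (n + 1)) s
  have h4 := R_pos' n
  unfold u
  positivity

lemma u_ratio (m : ℕ) (s : ℝ) (n : ℕ) :
    u m s (n + 1) / u m s n = (B m : ℝ) * 2 ^ s * (((n + 1 : ℕ) : ℝ) * ((2 : ℝ) ^ (s - m)) ^ (n + 1)) := by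
  have h1 : (0 : ℝ) < B m := by exact_mod_cast B_pos m
  have h2 : (0 : ℝ) < (n.factorial : ℝ) := by exact_mod_cast n.factorial_pos
  have h3 := Real.rpow_pos_of_pos (R_pos' (n + 1)) s
  have h4 := R_pos' n
  have h5 : (R (n + 1 + 1) : ℝ) ^ s = (R (n + 1) : ℝ) ^ s * ((2 : ℝ) ^ s * ((2 : ℝ) ^ s) ^ (n + 1)) := by
    rw [R_succ (n + 1)]
    push_cast
    rw [Real.mul_rpow (R_pos' _).le (by positivity), ← Real.rpow_natCast 2 (n + 1 + 1),
      ← Real.rpow_mul (by norm_num), ← Real.rpow_natCast ((2 : ℝ) ^ s) (n + 1),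
      ← Real.rpow_mul (by norm_num), ← Real.rpow_add (by norm_num)]
    congr 2
    push_cast
    ring
  have h6 : (R (n + 1) : ℝ) ^ m = (R n : ℝ) ^ m * ((2 : ℝ) ^ m) ^ (n + 1) := by
    rw [R_succ n]
    push_cast
    rw [mul_pow, ← pow_mul, ← pow_mul]
    congr 2
    ring
  have h7 : (2 : ℝ) ^ (s - m) = (2 : ℝ) ^ s / 2 ^ m := by
    rw [Real.rpow_sub (by norm_num), Real.rpow_natCast]
  unfold u
  rw [h5, h6, h7, Nat.factorial_succ]
  push_cast
  rw [div_pow]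
  field_simp
  ring

lemma u_bdd (m : ℕ) (s : ℝ) (hs : s < m) : ∃ C : ℝ, ∀ n, u m s n ≤ C := by
  have hsum : Summable (u m s) := by
    apply summable_of_ratio_test_tendsto_lt_one (l := 0) zero_lt_one
    · exact Eventually.of_forall fun n => (u_pos m s n).ne'
    · have h1 : ∀ n, ‖u m s (n + 1)‖ / ‖u m s n‖
          = (B m : ℝ) * 2 ^ s * (((n + 1 : ℕ) : ℝ) * ((2 : ℝ) ^ (s - m)) ^ (n + 1)) := by
        intro n
        rw [Real.norm_of_nonneg (u_pos m s n).le, Real.norm_of_nonneg (u_pos m s (n + 1)).le,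
          u_ratio]
      simp only [h1]
      have h2 : Tendsto (fun n : ℕ => (n : ℝ) * ((2 : ℝ) ^ (s - m)) ^ n) atTop (𝓝 0) := by
        apply tendsto_self_mul_const_pow_of_lt_one
        · positivity
        · apply Real.rpow_lt_one_of_one_lt_of_neg (by norm_num)
          linarith
      have h3 := (h2.comp (tendsto_add_atTop_nat 1)).const_mul ((B m : ℝ) * 2 ^ s)
      rw [mul_zero] at h3
      exact h3
  obtain ⟨C, hC⟩ := hsum.tendsto_atTop_zero.bddAbove_range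
  exact ⟨C, fun n => hC ⟨n, rfl⟩⟩

lemma tube_subset {d : ℕ} {l : Set (EuclideanSpace ℝ (Fin d))} {p v : EuclideanSpace ℝ (Fin d)}
    (hl : l = {y | ∃ t : ℝ, y = p + t • v}) {w r : ℝ} (hw : 0 < w) (hwr : w ≤ r) :
    tube l w ⊆ {z | ∃ t : ℝ, dist z (p + t • v) ≤ r} := by
  intro x hx
  have hne : l.Nonempty := ⟨p, by rw [hl]; exact ⟨0, by simp⟩⟩
  have h1 : Metric.infDist x l < w := lt_of_le_of_lt hx (by linarith)
  obtain ⟨y, hy, hxy⟩ := (Metric.infDist_lt_iff hne).mp h1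
  rw [hl] at hy
  obtain ⟨t, rfl⟩ := hy
  exact ⟨t, hxy.le.trans hwr⟩

lemma exists_level {w : ℝ} (hw0 : 0 < w) (hw1 : w ≤ 1) :
    ∃ n, w * R n ≤ 1 ∧ 1 < w * R (n + 1) := by
  classical
  have hex : ∃ n, 1 < w * R n := by
    have := tendsto_R.const_mul_atTop hw0
    exact (this.eventually_gt_atTop 1).exists
  have hspec := Nat.find_spec hex
  have hmin := fun k (hk : k < Nat.find hex) => Nat.find_min hex hk
  rcases hn : Nat.find hex with _ | n
  · rw [hn] at hspec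
    simp [R] at hspec
    linarith
  · rw [hn] at hspec hmin
    exact ⟨n, not_lt.mp (hmin n (Nat.lt_succ_self n)), hspec⟩

lemma bound (m : ℕ) (hm : 1 ≤ m) (s : ℝ) (hs : s < m) :
    ∃ C : ℝ, ∀ (l : Set (E m)) (w : ℝ), IsLine l → 0 < w → (w ≤ 1 ∨ 0 ≤ s) →
      μH[(m : ℝ)] (K m ∩ tube l w) ≤ ENNReal.ofReal (C * w ^ s) := by
  have hm' : (1 : ℝ) ≤ m := by exact_mod_cast hm
  obtain ⟨C0, hC0⟩ := u_bdd m (max s 0) (max_lt hs (by linarith))
  have hC0pos : 0 < C0 := lt_of_lt_of_le (u_pos m (max s 0) 0) (hC0 0)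
  refine ⟨((m : ℝ) + 1) ^ m * max C0 1, fun l w hl hw hor => ?_⟩
  have hD : (0 : ℝ) < ((m : ℝ) + 1) ^ m := by positivity
  rcases le_or_gt w 1 with hw1 | hw1
  · obtain ⟨p, v, _, hlv⟩ := hl
    obtain ⟨n, hn1, hn2⟩ := exists_level hw hw1
    have hsub : K m ∩ tube l w ⊆ K m ∩ Nbhd p v w :=
      Set.inter_subset_inter_right _ (tube_subset hlv hw (le_refl w))
    refine (measure_mono hsub).trans ((measure_le m n _).trans (ENNReal.ofReal_le_ofReal ?_))
    have hR := R_pos' n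
    have hR1 := R_pos' (n + 1)
    have h1 : ((hit m n (Nbhd p v w)).card : ℝ) ≤ (B m : ℝ) ^ n * n.factorial := by
      exact_mod_cast card_hit_thin_le m n p v w hw.le hn1
    have h2 := hC0 n
    unfold u at h2
    have h3 : 1 ≤ w ^ (max s 0) * (R (n + 1) : ℝ) ^ (max s 0) := by
      rw [← Real.mul_rpow hw.le hR1.le]
      exact Real.one_le_rpow hn2.le (le_max_right _ _)
    have h4 : w ^ (max s 0) ≤ w ^ s :=
      Real.rpow_le_rpow_of_exponent_ge hw hw1 (le_max_left _ _)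
    have hRs := Real.rpow_pos_of_pos hR1 (max s 0)
    have hws := Real.rpow_pos_of_pos hw (max s 0)
    have h5 : (B m : ℝ) ^ n * n.factorial / (R n : ℝ) ^ m ≤ C0 * w ^ (max s 0) := by
      have h6 : (B m : ℝ) ^ n * n.factorial / (R n : ℝ) ^ m * (R (n + 1) : ℝ) ^ (max s 0) ≤ C0 := by
        calc _ = ((B m : ℝ) ^ n * n.factorial) * (R (n + 1) : ℝ) ^ (max s 0) / (R n : ℝ) ^ m := by
              ring
          _ ≤ C0 := h2
      have h7 : 0 ≤ (B m : ℝ) ^ n * n.factorial / (R n : ℝ) ^ m := by positivity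
      calc (B m : ℝ) ^ n * n.factorial / (R n : ℝ) ^ m
          ≤ (B m : ℝ) ^ n * n.factorial / (R n : ℝ) ^ m *
              (w ^ (max s 0) * (R (n + 1) : ℝ) ^ (max s 0)) := le_mul_of_one_le_right h7 h3
        _ = ((B m : ℝ) ^ n * n.factorial / (R n : ℝ) ^ m * (R (n + 1) : ℝ) ^ (max s 0)) *
              w ^ (max s 0) := by ring
        _ ≤ C0 * w ^ (max s 0) := mul_le_mul_of_nonneg_right h6 hws.le
    calc ((hit m n (Nbhd p v w)).card : ℝ) * (((m : ℝ) + 1) / R n) ^ m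
        ≤ ((B m : ℝ) ^ n * n.factorial) * (((m : ℝ) + 1) / R n) ^ m :=
          mul_le_mul_of_nonneg_right h1 (by positivity)
      _ = ((m : ℝ) + 1) ^ m * ((B m : ℝ) ^ n * n.factorial / (R n : ℝ) ^ m) := by
          rw [div_pow]; ring
      _ ≤ ((m : ℝ) + 1) ^ m * (C0 * w ^ (max s 0)) := mul_le_mul_of_nonneg_left h5 hD.le
      _ ≤ ((m : ℝ) + 1) ^ m * (max C0 1 * w ^ s) := by
          apply mul_le_mul_of_nonneg_left _ hD.le
          exact mul_le_mul (le_max_left _ _) h4 hws.le (le_trans hC0pos.le (le_max_left _ _))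
      _ = ((m : ℝ) + 1) ^ m * max C0 1 * w ^ s := by ring
  · have hs0 : 0 ≤ s := hor.resolve_left (not_le.mpr hw1)
    refine (measure_mono Set.inter_subset_left).trans
      ((measure_K_le m).trans (ENNReal.ofReal_le_ofReal ?_))
    have h1 : 1 ≤ w ^ s := Real.one_le_rpow hw1.le hs0
    have h2 : (1 : ℝ) ≤ max C0 1 := le_max_right _ _
    calc ((m : ℝ) + 1) ^ m = ((m : ℝ) + 1) ^ m * 1 * 1 := by ring
      _ ≤ ((m : ℝ) + 1) ^ m * max C0 1 * w ^ s := by
          apply mul_le_mul (mul_le_mul_of_nonneg_left h2 hD.le) h1 zero_le_one (by positivity)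

/-- For every `d ≥ 2` there is a compact `K ⊆ ℝ^d` with `0 < H^{d-1}(K) < ∞` such that for every
real `s < d - 1` there is a constant `C` with `H^{d-1}(K ∩ T) ≤ C w(T)^s` for all tubes `T`
(if `s < 0`, for all tubes of width at most one). -/
theorem result (d : ℕ) (hd : 2 ≤ d) :
    ∃ K : Set (EuclideanSpace ℝ (Fin d)), IsCompact K ∧
      0 < μH[(d : ℝ) - 1] K ∧ μH[(d : ℝ) - 1] K < ∞ ∧
      ∀ s : ℝ, s < (d : ℝ) - 1 → ∃ C : ℝ, ∀ (l : Set (EuclideanSpace ℝ (Fin d))) (w : ℝ),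
        IsLine l → 0 < w → (w ≤ 1 ∨ 0 ≤ s) →
          μH[(d : ℝ) - 1] (K ∩ tube l w) ≤ ENNReal.ofReal (C * w ^ s) := by
  obtain ⟨m, rfl⟩ : ∃ m, d = m + 1 := ⟨d - 1, by omega⟩
  have hcast : (((m + 1 : ℕ) : ℝ) - 1) = (m : ℝ) := by push_cast; ring
  rw [hcast]
  exact ⟨K m, isCompact_K m, measure_pos m,
    lt_of_le_of_lt (measure_K_le m) ENNReal.ofReal_lt_top, fun s hs => bound m (by omega) s hs⟩

end K9h79.Tube.AllExp
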